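import Pool.Agent.U566.BMDeep2

/-!
# Polynomial behaviour of the crystalline cycles and reduction to deep Hodge types

`S` is the set of embeddings `K → E`, `q = p^f` the size of the residue field `k` of `K`,
`j : S → ZMod f` records the embedding of `k` induced by `σ ∈ S`.  `Z μ` is the cycle of the special
fibre of the crystalline stack with labelled Hodge–Tate weights `μ` (regular); the values of `Z` at
other tuples play no role.  `N` is any positive multiple of the numbers `q^k - 1`, `1 ≤ k ≤ d`, and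
`C` any bound.
-/

namespace Pool.Agent.Results.MP_4c60d4_nt.DeepHodgeTypes

open U566.BM

/-- (1) If all integral relations between the reductions of the `σ^crys(λ)` hold between the cycles,
then the cycles are polynomial of degree at most `|s| d(d-1)/2` in `k` along `μ + k N v`, `v`
non-increasing at each embedding and supported on the set `s` of embeddings.  (2) These relations
hold if and only if they hold for the tuples all of whose gaps are at least `C` and the cycles are
polynomial of degree at most `d(d-1)/2` along the progressions `μ + k N ρ_σ`.  (3) Cycles `Y k`, one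
for each Serre weight, as in the conjecture exist if and only if they exist for the tuples with all
gaps at least `C` and the same polynomiality holds; the same cycles serve. -/
theorem result (p f d : ℕ) [Fact p.Prime] [NeZero f] {S : Type} [Fintype S] [DecidableEq S]
    (j : S → ZMod f) {M : Type} [AddCommGroup M] (Z : Wt S d → M)
    (N : ℕ) (hN0 : 0 < N) (hN : ∀ k, 1 ≤ k → k ≤ d → ((p ^ f) ^ k - 1) ∣ N) (C : ℕ) :
    (BMRelations p f j Z →
      ∀ (μ : Reg S d) (s : Finset S) (v : S → Fin d → ℕ), (∀ σ, Antitone (v σ)) →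
        (∀ σ, σ ∉ s → ∀ i, v σ i = 0) →
          diffSum Z (s.card * (d * (d - 1) / 2) + 1) N v μ.1 = 0) ∧
    (BMRelations p f j Z ↔ DeepBM p f j C Z ∧ RhoPolyC N Z) ∧
    ∀ (W : Type) [Fintype W] (D : SerreWeights p f d j W),
      ((∃ Y : W → M, ∀ μ : Reg S d, Z μ.1 = ∑ k, D.n k μ • Y k) ↔
        (∃ Y : W → M, ∀ μ : Reg S d, Deep C μ.1 → Z μ.1 = ∑ k, D.n k μ • Y k) ∧
          RhoPolyC N Z) ∧
      ∀ Y : W → M, (∀ μ : Reg S d, Z μ.1 = ∑ k, D.n k μ • Y k) ↔
        (∀ μ : Reg S d, Deep C μ.1 → Z μ.1 = ∑ k, D.n k μ • Y k) ∧ RhoPolyC N Z := by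
  refine ⟨fun h μ s _ hv hv0 => polyC_of_rel h hN μ s hv hv0, crysRel_iff_deep hN0 hN C,
    fun W _ D => ⟨⟨?_, ?_⟩, crys_deep_iff D hN0 hN C⟩⟩
  · rintro ⟨Y, hY⟩
    obtain ⟨h1, h2⟩ := (crys_deep_iff D hN0 hN C Y).1 hY
    exact ⟨⟨Y, h1⟩, h2⟩
  · rintro ⟨⟨Y, hY⟩, h2⟩
    exact ⟨Y, (crys_deep_iff D hN0 hN C Y).2 ⟨hY, h2⟩⟩

end Pool.Agent.Results.MP_4c60d4_nt.DeepHodgeTypes
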