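import Pool.Agent.U566.BMMain

/-!
# The geometric Breuil–Mézard conjecture as a system of linear equations between cycles

`S` is the set of embeddings `K → E`, `q = p^f` the size of the residue field `k` of `K`, and
`j : S → ZMod f` records the embedding of `k` induced by `σ ∈ S` (a torsor under Frobenius, based
at one of them).  `Z μ` is the cycle of the special fibre of the crystalline stack with labelled
Hodge–Tate weights `μ` for `μ` regular (strictly decreasing at each embedding), extended to all
integer tuples by the sign rule `IsAlt`.
-/

namespace Pool.Agent.Results.MP_4c60d4_nt.FrobeniusEquations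

open U566.BM

/-- The Breuil–Mézard conjecture for `(K, d)`, in relation form and in the form: there are cycles
`Y k`, one per Serre weight; both are equivalent to the fibre and Frobenius equations. -/
theorem result (p f d : ℕ) [Fact p.Prime] [NeZero f] {S : Type} [Fintype S] [DecidableEq S]
    (j : S → ZMod f) (hj : Function.Surjective j)
    {M : Type} [AddCommGroup M] [IsAddTorsionFree M] (Z : Wt S d → M) (hZ : IsAlt Z) :
    (BMRelations p f j Z ↔ FibreEq j Z ∧ FrobEq p j Z) ∧
    ∀ (W : Type) [Fintype W] (D : SerreWeights p f d j W),
      (∃ Y : W → M, ∀ μ : Reg S d, Z μ.1 = ∑ k, D.n k μ • Y k) ↔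
        FibreEq j Z ∧ FrobEq p j Z :=
  ⟨main hj hZ, fun _ _ D => main_serre hj hZ D⟩

end Pool.Agent.Results.MP_4c60d4_nt.FrobeniusEquations
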