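import Pool.Agent.U566.BMRel

/-!
# The crystalline geometric Breuil–Mézard conjecture: one equation per Hodge type

`S` is the set of embeddings `K → E`, `q = p^f` the size of the residue field `k` of `K`,
`j : S → ZMod f` records the embedding of `k` induced by `σ ∈ S`, and `s` chooses an element of `S`
above each embedding of `k`.  `Z μ` is the cycle of the special fibre of the crystalline stack with
labelled Hodge–Tate weights `μ` for `μ` regular, extended to all integer tuples by the sign rule
`IsAlt`.  The rank is `m + 1`.
-/

namespace Pool.Agent.Results.MP_4c60d4_nt.OneEquationPerHodgeType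

open U566.BM

/-- First part (no assumption on the representation side): all integral relations between the
reductions of the `σ^crys(λ)` hold between the cycles if and only if the `Z μ` satisfy the twist
equations and, for each unrestricted regular tuple, one reduction equation; nothing is asked of the
restricted tuples.  Second part (`D` the Serre weights): this is equivalent to the existence of the
cycles `Y k`, and these are explicit integral combinations of the `Z μ` at the `q^m (q-1)`
normalised restricted tuples. -/
theorem result (p f m : ℕ) [Fact p.Prime] [NeZero f] {S : Type} [Fintype S] [DecidableEq S]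
    (j : S → ZMod f) (s : ZMod f → S) (hs : ∀ k, j (s k) = k)
    {M : Type} [AddCommGroup M] [IsAddTorsionFree M] (Z : Wt S (m + 1) → M) (hZ : IsAlt Z) :
    (BMRelations p f j Z ↔ TwistK p j Z ∧ OneEqK p j s Z) ∧
    ∀ (W : Type) [Fintype W] (D : SerreWeights p f (m + 1) j W),
      ((∃ Y : W → M, ∀ μ : Reg S (m + 1), Z μ.1 = ∑ k, D.n k μ • Y k) ↔
        TwistK p j Z ∧ OneEqK p j s Z) ∧
      (∀ k, ∃! y, Explicit D s Z k y) ∧
      ∀ Y : W → M, (∀ μ : Reg S (m + 1), Z μ.1 = ∑ k, D.n k μ • Y k) →
        ∀ k y, Explicit D s Z k y → Y k = y :=
  ⟨crysRel_iff hs hZ, fun _ _ D => crys_iff hs D hZ⟩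

end Pool.Agent.Results.MP_4c60d4_nt.OneEquationPerHodgeType
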