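import Pool.Agent.U566.BMEqui3

/-!
# Proportionality of the crystalline cycles for Hodge types with congruent weights

`S` is the set of embeddings `K → E`, `q = p^f` the size of the residue field `k` of `K`,
`j : S → ZMod f` records the embedding of `k` induced by `σ ∈ S`.  `Z μ` is the cycle of the special
fibre of the crystalline stack with labelled Hodge–Tate weights `μ` (regular), in the torsion-free
group `M` of cycles; the values at other tuples play no role.  `N` is any multiple of the numbers
`q^k - 1`, `1 ≤ k ≤ d`.
-/

namespace Pool.Agent.Results.MP_4c60d4_nt.ProportionalCycles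

open U566.BM

/-- (1) All integral relations between the reductions of the `σ^crys` with regular weights `μ` that
are congruent modulo `N` at each embedding hold between the cycles if and only if, for any two such
tuples with the same central character on `F_q^×`, the cycles are proportional to the numbers
`∏_σ ∏_{i<l} (μ_{σ,i} - μ_{σ,l})`.  (2) In particular this is so if cycles `Y k` satisfy the
Breuil–Mézard identities for these tuples. -/
theorem result (p f d : ℕ) [Fact p.Prime] (hd : 0 < d) {S : Type} [Fintype S] [DecidableEq S]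
    [Nonempty S] (j : S → ZMod f) {M : Type} [AddCommGroup M] [IsAddTorsionFree M]
    (Z : Wt S d → M) (N : ℕ) (hN : ∀ k, 1 ≤ k → k ≤ d → ((p ^ f) ^ k - 1) ∣ N) :
    (CongBM p f j N Z ↔
      ∀ (μ μ' : Reg S d), CongN N μ.1 → CongN N μ'.1 → wtChar p f j μ.1 = wtChar p f j μ'.1 →
        prodDiff μ'.1 • Z μ.1 = prodDiff μ.1 • Z μ'.1) ∧
    ∀ (W : Type) [Fintype W] (β : W → (Cls p f d → WittVector p (AlgebraicClosure (ZMod p))))
      (n : W → Reg S d → ℤ) (Y : W → M), LinearIndependent ℤ β →
      (∀ μ : Reg S d, brauer p f j μ.1 = ∑ k, n k μ • β k) →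
      (∀ μ : Reg S d, CongN N μ.1 → Z μ.1 = ∑ k, n k μ • Y k) →
      ∀ (μ μ' : Reg S d), CongN N μ.1 → CongN N μ'.1 → wtChar p f j μ.1 = wtChar p f j μ'.1 →
        prodDiff μ'.1 • Z μ.1 = prodDiff μ.1 • Z μ'.1 := by
  have key := congBM_iff (S := S) (j := j) hd hN Z
  exact ⟨key, fun W _ β n Y hβ hn hY => key.1 (congBM_of_identities hβ n hn Y hY)⟩

end Pool.Agent.Results.MP_4c60d4_nt.ProportionalCycles
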